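import Mathlib

/-! # Multi-way isoperimetric constants: counting lemmas -/

namespace Pool.Agent.X132.MW

open Finset

section Abs

variable {V : Type*} [Fintype V] [DecidableEq V]

/-- weight of the boundary of a set -/
def eb (d : V → V → ℝ) (S : Finset V) : ℝ := ∑ x ∈ S, ∑ y, if y ∈ S then 0 else d x y

/-- weight of the edges from `x` to points with another value of `f` -/
def cd {α : Type*} [DecidableEq α] (d : V → V → ℝ) (f : V → α) (x : V) : ℝ :=
  ∑ y, if f y = f x then 0 else d x y

lemma eb_nonneg {d : V → V → ℝ} (hd : ∀ x y, 0 ≤ d x y) (S : Finset V) : 0 ≤ eb d S := by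
  unfold eb
  refine sum_nonneg fun x _ => sum_nonneg fun y _ => ?_
  split_ifs
  · exact le_rfl
  · exact hd x y

lemma cd_nonneg {α : Type*} [DecidableEq α] {d : V → V → ℝ} (hd : ∀ x y, 0 ≤ d x y)
    (f : V → α) (x : V) : 0 ≤ cd d f x := by
  unfold cd
  refine sum_nonneg fun y _ => ?_
  split_ifs
  · exact le_rfl
  · exact hd x y

lemma eb_fiber {α : Type*} [DecidableEq α] (d : V → V → ℝ) (f : V → α) (c : α) :
    eb d (univ.filter (fun x => f x = c)) = ∑ x ∈ univ.filter (fun x => f x = c), cd d f x := by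
  unfold eb cd
  refine sum_congr rfl fun x hx => sum_congr rfl fun y _ => ?_
  have hx' : f x = c := (mem_filter.mp hx).2
  simp only [mem_filter, mem_univ, true_and, hx']

lemma sum_cd {α : Type*} [DecidableEq α] [Fintype α] (d : V → V → ℝ) (f : V → α) :
    ∑ x, cd d f x = ∑ c, eb d (univ.filter (fun x => f x = c)) := by
  simp_rw [eb_fiber]
  rw [sum_fiberwise]

lemma sum_pieces {γ : Type*} [Fintype γ] [DecidableEq γ] {d : V → V → ℝ}
    (hd : ∀ x y, 0 ≤ d x y) (f : V → γ) (E : Finset V) :
    ∑ c, eb d (E.filter (fun x => f x = c)) ≤ eb d E + ∑ x ∈ E, cd d f x := by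
  have h1 : ∀ c, eb d (E.filter (fun x => f x = c))
      = ∑ x ∈ E.filter (fun x => f x = c), ∑ y, if (y ∈ E ∧ f y = f x) then 0 else d x y := by
    intro c
    unfold eb
    refine sum_congr rfl fun x hx => sum_congr rfl fun y _ => ?_
    have hx' : f x = c := (mem_filter.mp hx).2
    simp only [mem_filter, hx']
  simp_rw [h1]
  rw [sum_fiberwise]
  unfold eb cd
  rw [← sum_add_distrib]
  refine sum_le_sum fun x _ => ?_
  rw [← sum_add_distrib]
  refine sum_le_sum fun y _ => ?_
  have := hd x y
  split_ifs <;> first | linarith | (exfalso; tauto)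

lemma cd_pair {α β : Type*} [DecidableEq α] [DecidableEq β] {d : V → V → ℝ}
    (hd : ∀ x y, 0 ≤ d x y) (f : V → α) (g : V → β) (x : V) :
    cd d (fun x => (f x, g x)) x ≤ cd d f x + cd d g x := by
  unfold cd
  rw [← sum_add_distrib]
  refine sum_le_sum fun y _ => ?_
  have := hd x y
  simp only [Prod.mk.injEq]
  split_ifs <;> first | linarith | (exfalso; tauto)

lemma card_bad {γ : Type*} [Fintype γ] [DecidableEq γ] (f : V → γ) (E : Finset V)
    (bad : γ → Prop) [DecidablePred bad] :
    ∑ c ∈ univ.filter bad, ((E.filter (fun x => f x = c)).card : ℝ)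
      = ((E.filter (fun x => bad (f x))).card : ℝ) := by
  rw [card_eq_sum_card_fiberwise (f := f) (t := univ.filter bad)]
  · push_cast
    refine sum_congr rfl fun c hc => ?_
    have hc' : bad c := (mem_filter.mp hc).2
    congr 2
    ext x
    simp only [mem_filter]
    constructor
    · rintro ⟨h1, h2⟩
      exact ⟨⟨h1, h2 ▸ hc'⟩, h2⟩
    · rintro ⟨⟨h1, _⟩, h2⟩
      exact ⟨h1, h2⟩
  · intro x hx
    have := (mem_filter.mp (mem_coe.mp hx)).2
    simpa using this

/-- few points in bad pieces -/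
lemma bad_bound {ι : Type*} (I : Finset ι) (s e : ι → ℝ) {K h L : ℝ}
    (hs : ∀ i ∈ I, 0 ≤ s i) (he : ∀ i ∈ I, 0 ≤ e i) (bad : ι → Prop) [DecidablePred bad]
    (hb : ∀ i ∈ I, bad i → 0 < s i → K * h * s i < e i) (hh : 0 ≤ h) (hL : 0 ≤ L)
    (htot : ∑ i ∈ I, e i ≤ L * h) : K * ∑ i ∈ I.filter bad, s i ≤ L := by
  by_cases hex : ∃ i ∈ I, bad i ∧ 0 < s i
  · obtain ⟨i, hi, hbi, hsi⟩ := hex
    have h1 : ∑ i ∈ I.filter bad, K * h * s i < ∑ i ∈ I.filter bad, e i := by
      apply sum_lt_sum
      · intro j hj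
        obtain ⟨hj1, hj2⟩ := mem_filter.mp hj
        rcases (hs j hj1).eq_or_lt with h0 | h0
        · rw [← h0, mul_zero]
          exact he j hj1
        · exact (hb j hj1 hj2 h0).le
      · exact ⟨i, mem_filter.mpr ⟨hi, hbi⟩, hb i hi hbi hsi⟩
    have h2 : ∑ i ∈ I.filter bad, e i ≤ ∑ i ∈ I, e i :=
      sum_le_sum_of_subset_of_nonneg (filter_subset _ _) fun j hj _ => he j hj
    rw [← mul_sum] at h1
    have h3 : h * (K * ∑ i ∈ I.filter bad, s i) < h * L := by
      calc h * (K * ∑ i ∈ I.filter bad, s i) = K * h * ∑ i ∈ I.filter bad, s i := by ring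
        _ < L * h := lt_of_lt_of_le h1 (h2.trans htot)
        _ = h * L := by ring
    exact (lt_of_mul_lt_mul_left h3 hh).le
  · push Not at hex
    have h1 : ∑ i ∈ I.filter bad, s i = 0 := by
      refine sum_eq_zero fun i hi => ?_
      obtain ⟨hi1, hi2⟩ := mem_filter.mp hi
      exact le_antisymm (hex i hi1 hi2) (hs i hi1)
    rw [h1, mul_zero]
    exact hL

end Abs

section Grp

variable {V : Type*} [Fintype V] [DecidableEq V] {G : Type*} [Group G] [Fintype G]
  [MulAction G V]

lemma sum_smul' (F : V → ℝ) (g : G) : ∑ x, F (g • x) = ∑ x, F x :=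
  Equiv.sum_comp (MulAction.toPerm g) F

lemma sum_grp [MulAction.IsPretransitive G V] (F : V → ℝ) (x y : V) :
    ∑ g : G, F (g • x) = ∑ g : G, F (g • y) := by
  obtain ⟨k, rfl⟩ := MulAction.exists_smul_eq G x y
  simp_rw [smul_smul]
  exact (Equiv.sum_comp (Equiv.mulRight k) (fun g => F (g • x))).symm

lemma avg [MulAction.IsPretransitive G V] (F : V → ℝ) (x : V) :
    (Fintype.card V : ℝ) * ∑ g : G, F (g • x) = (Fintype.card G : ℝ) * ∑ y, F y := by
  have h1 : ∑ _y : V, ∑ g : G, F (g • x) = ∑ y : V, ∑ g : G, F (g • y) :=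
    sum_congr rfl fun y _ => sum_grp F x y
  rw [sum_const, nsmul_eq_mul, card_univ] at h1
  rw [h1, sum_comm]
  simp_rw [sum_smul' F]
  rw [sum_const, nsmul_eq_mul, card_univ]

/-- the part of the partition `P ∘ g` containing `x` -/
def prt {α : Type*} [DecidableEq α] (P : V → α) (g : G) (x : V) : Finset V :=
  univ.filter (fun y => P (g • y) = P (g • x))

lemma cd_smul {α : Type*} [DecidableEq α] {d : V → V → ℝ}
    (hinv : ∀ (g : G) x y, d (g • x) (g • y) = d x y) (P : V → α) (g : G) (x : V) :
    cd d (fun y => P (g • y)) x = cd d P (g • x) := by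
  unfold cd
  rw [← sum_smul' (fun y => if P y = P (g • x) then 0 else d (g • x) y) g]
  refine sum_congr rfl fun y _ => ?_
  rw [hinv]

lemma eb_image {d : V → V → ℝ} (hinv : ∀ (g : G) x y, d (g • x) (g • y) = d x y) (g : G)
    (S : Finset V) : eb d (S.image (g • ·)) = eb d S := by
  unfold eb
  rw [sum_image (fun a _ b _ h => MulAction.injective g h)]
  refine sum_congr rfl fun x _ => ?_
  rw [← sum_smul' (fun y => if y ∈ S.image (g • ·) then 0 else d (g • x) y) g]
  refine sum_congr rfl fun y _ => ?_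
  have : g • y ∈ S.image (g • ·) ↔ y ∈ S := by
    rw [mem_image]
    constructor
    · rintro ⟨z, hz, h⟩
      rwa [← MulAction.injective g h]
    · intro h
      exact ⟨y, h, rfl⟩
  simp only [this, hinv]

/-- internal expansion of the parts passes to the translated partitions -/
lemma expand_smul {α : Type*} [DecidableEq α] {d : V → V → ℝ} {c : ℝ}
    (hinv : ∀ (g : G) x y, d (g • x) (g • y) = d x y) (P : V → α)
    (hA : ∀ a, ∀ B : Finset V, B ⊆ univ.filter (fun x => P x = a) → B.Nonempty →
      2 * B.card ≤ (univ.filter (fun x => P x = a)).card → c * B.card < eb d B)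
    (g : G) (x : V) (B : Finset V) (hB : B ⊆ prt P g x) (hne : B.Nonempty)
    (hc : 2 * B.card ≤ (prt P g x).card) : c * B.card < eb d B := by
  have hinj : Function.Injective (fun y : V => g • y) := MulAction.injective g
  have h1 : (prt P g x).image (g • ·) = univ.filter (fun y => P y = P (g • x)) := by
    ext y
    simp only [prt, mem_image, mem_filter, mem_univ, true_and]
    constructor
    · rintro ⟨z, hz, rfl⟩
      exact hz
    · intro h
      exact ⟨g⁻¹ • y, by rw [smul_inv_smul]; exact h, smul_inv_smul g y⟩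
  have h2 : (univ.filter (fun y => P y = P (g • x))).card = (prt P g x).card := by
    rw [← h1, card_image_of_injective _ hinj]
  have h3 := hA (P (g • x)) (B.image (g • ·)) (by
    rw [← h1]; exact image_subset_image hB) (hne.image _) (by
    rw [card_image_of_injective _ hinj, h2]; exact hc)
  rwa [eb_image hinv, card_image_of_injective _ hinj] at h3

end Grp

end Pool.Agent.X132.MW
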