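import Mathlib
import Pool.Agent.X132.MW.A

/-! # Multi-way isoperimetric constants: the approximate block system -/

namespace Pool.Agent.X132.MW

open Finset

section Gap

variable {V : Type*} [Fintype V] [DecidableEq V] {G : Type*} [Group G] [Fintype G]
  [MulAction G V] {α : Type*} [Fintype α] [DecidableEq α]

/-- standing hypotheses -/
structure Hyp (G : Type*) [Group G] [Fintype G] [MulAction G V] (d : V → V → ℝ) (P : V → α)
    (h : ℝ) : Prop where
  hd : ∀ x y, 0 ≤ d x y
  hs : ∀ x y, d x y = d y x
  hinv : ∀ (g : G) x y, d (g • x) (g • y) = d x y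
  hh : 0 ≤ h
  hP : ∀ a, eb d (univ.filter (fun x => P x = a)) ≤ h * (univ.filter (fun x => P x = a)).card
  hA : ∀ a, ∀ B : Finset V, B ⊆ univ.filter (fun x => P x = a) → B.Nonempty →
      2 * B.card ≤ (univ.filter (fun x => P x = a)).card → 27 * h * B.card < eb d B

variable {d : V → V → ℝ} {P : V → α} {h : ℝ}

lemma Hyp.sum_cd_le (H : Hyp G d P h) : ∑ x, cd d P x ≤ h * Fintype.card V := by
  rw [sum_cd]
  calc ∑ c, eb d (univ.filter (fun x => P x = c))
      ≤ ∑ c, h * ((univ.filter (fun x => P x = c)).card : ℝ) := sum_le_sum fun c _ => H.hP c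
    _ = h * Fintype.card V := by
        rw [← mul_sum]
        congr 1
        rw [← card_univ, card_eq_sum_card_fiberwise (f := P) (t := univ)]
        · push_cast; rfl
        · intro x _; simp

lemma Hyp.sum_g_cd (H : Hyp G d P h) [MulAction.IsPretransitive G V] (x : V) :
    ∑ g : G, cd d (fun y => P (g • y)) x ≤ h * Fintype.card G := by
  have h1 := avg (G := G) (cd d P) x
  have hV : (0 : ℝ) < Fintype.card V := by
    exact_mod_cast Fintype.card_pos_iff.mpr ⟨x⟩
  have hG : (0 : ℝ) ≤ Fintype.card G := by positivity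
  have h2 : ∑ g : G, cd d (fun y => P (g • y)) x = ∑ g : G, cd d P (g • x) :=
    sum_congr rfl fun g _ => cd_smul H.hinv P g x
  rw [h2]
  have h3 := mul_le_mul_of_nonneg_left H.sum_cd_le hG
  rw [← h1] at h3
  have h4 : (Fintype.card V : ℝ) * ∑ g : G, cd d P (g • x)
      ≤ (Fintype.card V : ℝ) * (h * Fintype.card G) := by linarith
  exact le_of_mul_le_mul_left h4 hV

/-- indicator of the event that `x` lies in a minor piece -/
def chi (P : V → α) (x : V) (g g' : G) : ℝ :=
  if 2 * (prt P g x ∩ prt P g' x).card ≤ (prt P g x).card then 1 else 0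

lemma chi_nonneg (P : V → α) (x : V) (g g' : G) : 0 ≤ chi P x g g' := by
  unfold chi; split_ifs <;> norm_num

lemma prt_smul (P : V → α) (g k : G) (x : V) :
    prt P g (k • x) = (prt P (g * k) x).image (k • ·) := by
  ext y
  simp only [prt, mem_filter, mem_univ, true_and, mem_image, mul_smul]
  constructor
  · intro hy
    exact ⟨k⁻¹ • y, by rw [smul_inv_smul]; exact hy, smul_inv_smul k y⟩
  · rintro ⟨z, hz, rfl⟩
    exact hz

lemma chi_smul (P : V → α) (x : V) (g g' k : G) :
    chi P (k • x) g g' = chi P x (g * k) (g' * k) := by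
  unfold chi
  have hinj : Function.Injective (fun y : V => k • y) := MulAction.injective k
  rw [prt_smul, prt_smul, ← image_inter _ _ hinj, card_image_of_injective _ hinj,
    card_image_of_injective _ hinj]

/-- total weight of the event, over pairs of group elements -/
def mm (G : Type*) [Group G] [Fintype G] [MulAction G V] (P : V → α) (x : V) : ℝ :=
  ∑ g : G, ∑ g' : G, chi P x g g'

lemma mm_smul (P : V → α) (x : V) (k : G) : mm G P (k • x) = mm G P x := by
  unfold mm
  simp_rw [chi_smul]
  rw [← Equiv.sum_comp (Equiv.mulRight k) (fun g => ∑ g' : G, chi P x g g')]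
  refine sum_congr rfl fun g _ => ?_
  rw [← Equiv.sum_comp (Equiv.mulRight k) (fun g' => chi P x (Equiv.mulRight k g) g')]
  rfl

lemma Hyp.sum_chi (H : Hyp G d P h) (g g' : G) :
    27 * ∑ x, chi P x g g' ≤ 2 * Fintype.card V := by
  classical
  set f : V → α × α := fun x => (P (g • x), P (g' • x)) with hf
  set bad : α × α → Prop := fun c =>
    2 * (univ.filter (fun x => f x = c)).card ≤ (univ.filter (fun x => P (g • x) = c.1)).card
    with hbad
  have e1 : ∀ x, prt P g x ∩ prt P g' x = univ.filter (fun y => f y = f x) := by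
    intro x
    ext y
    simp only [prt, mem_inter, mem_filter, mem_univ, true_and, hf, Prod.mk.injEq]
  have e2 : ∑ x, chi P x g g' = ((univ.filter (fun x => bad (f x))).card : ℝ) := by
    rw [card_filter]
    push_cast
    refine sum_congr rfl fun x _ => ?_
    unfold chi
    rw [e1 x]
    rfl
  rw [e2, ← card_bad f univ bad]
  refine bad_bound (K := 27) (h := h) univ
    (fun c => ((univ.filter (fun x => f x = c)).card : ℝ))
    (fun c => eb d (univ.filter (fun x => f x = c))) (fun c _ => by positivity)
    (fun c _ => eb_nonneg H.hd _) bad ?_ H.hh (by positivity) ?_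
  · intro c _ hc hpos
    have hne : (univ.filter (fun x => f x = c)).Nonempty := by
      rw [← card_pos]; exact_mod_cast hpos
    obtain ⟨x, hx⟩ := hne
    have hx' : f x = c := (mem_filter.mp hx).2
    refine expand_smul H.hinv P H.hA g x _ ?_ ⟨x, hx⟩ ?_
    · intro y hy
      have hy' : f y = c := (mem_filter.mp hy).2
      have : P (g • y) = P (g • x) := by
        have := hy'.trans hx'.symm
        exact (Prod.mk.injEq _ _ _ _ ▸ this).1
      simp [prt, this]
    · have hc' : 2 * (univ.filter (fun x => f x = c)).card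
          ≤ (univ.filter (fun x => P (g • x) = c.1)).card := hc
      have e3 : prt P g x = univ.filter (fun x => P (g • x) = c.1) := by
        unfold prt
        rw [← hx']
      rw [e3]
      exact hc'
  · have h1 := sum_pieces H.hd f univ
    have h2 : eb d univ = 0 := by
      unfold eb
      simp
    have h3 : ∑ x, cd d f x ≤ ∑ x, (cd d P (g • x) + cd d P (g' • x)) := by
      refine sum_le_sum fun x _ => ?_
      have := cd_pair H.hd (fun y => P (g • y)) (fun y => P (g' • y)) x
      rw [cd_smul H.hinv, cd_smul H.hinv] at this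
      exact this
    rw [sum_add_distrib, sum_smul' (cd d P) g, sum_smul' (cd d P) g'] at h3
    have h4 := H.sum_cd_le
    rw [h2, zero_add] at h1
    calc _ ≤ ∑ x, cd d f x := h1
      _ ≤ _ := h3
      _ ≤ h * Fintype.card V + h * Fintype.card V := by linarith
      _ = 2 * Fintype.card V * h := by ring

lemma Hyp.mm_le (H : Hyp G d P h) [MulAction.IsPretransitive G V] (x : V) :
    27 * mm G P x ≤ 2 * (Fintype.card G : ℝ) ^ 2 := by
  have hV : (0 : ℝ) < Fintype.card V := by
    exact_mod_cast Fintype.card_pos_iff.mpr ⟨x⟩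
  have h1 : ∀ y, mm G P y = mm G P x := by
    intro y
    obtain ⟨k, rfl⟩ := MulAction.exists_smul_eq G x y
    exact mm_smul P x k
  have h2 : ∑ y, mm G P y = Fintype.card V * mm G P x := by
    rw [sum_congr rfl fun y _ => h1 y, sum_const, nsmul_eq_mul, card_univ]
  have h3 : ∑ y, mm G P y = ∑ g : G, ∑ g' : G, ∑ y, chi P y g g' := by
    unfold mm
    rw [sum_comm]
    refine sum_congr rfl fun g _ => ?_
    rw [sum_comm]
  have h4 : 27 * ∑ g : G, ∑ g' : G, ∑ y, chi P y g g'
      ≤ ∑ _g : G, ∑ _g' : G, 2 * (Fintype.card V : ℝ) := by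
    rw [mul_sum]
    refine sum_le_sum fun g _ => ?_
    rw [mul_sum]
    exact sum_le_sum fun g' _ => H.sum_chi g g'
  rw [← h3, h2] at h4
  simp only [sum_const, nsmul_eq_mul, card_univ] at h4
  have h5 : (Fintype.card V : ℝ) * (27 * mm G P x)
      ≤ (Fintype.card V : ℝ) * (2 * (Fintype.card G : ℝ) ^ 2) := by nlinarith
  exact le_of_mul_le_mul_left h5 hV

/-- number of group elements that put `x` and `y` in the same part -/
def sm (G : Type*) [Group G] [Fintype G] [MulAction G V] (P : V → α) (x y : V) : ℕ :=
  (univ.filter (fun g : G => P (g • x) = P (g • y))).card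

lemma chi_or (P : V → α) (x y : V) (g g' : G) (h1 : P (g • x) = P (g • y))
    (h2 : P (g' • x) ≠ P (g' • y)) : 1 ≤ chi P x g g' + chi P y g g' := by
  by_contra hlt
  push Not at hlt
  have hx : ¬ 2 * (prt P g x ∩ prt P g' x).card ≤ (prt P g x).card := by
    intro hc
    have e : chi P x g g' = 1 := if_pos hc
    have := chi_nonneg P y g g'
    linarith
  have hy : ¬ 2 * (prt P g y ∩ prt P g' y).card ≤ (prt P g y).card := by
    intro hc
    have e : chi P y g g' = 1 := if_pos hc
    have := chi_nonneg P x g g'
    linarith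
  have e1 : prt P g y = prt P g x := by
    unfold prt
    rw [h1]
  rw [e1] at hy
  have hdis : Disjoint (prt P g x ∩ prt P g' x) (prt P g x ∩ prt P g' y) := by
    rw [disjoint_left]
    intro z hz1 hz2
    have a1 := (mem_filter.mp (mem_inter.mp hz1).2).2
    have a2 := (mem_filter.mp (mem_inter.mp hz2).2).2
    exact h2 (a1.symm.trans a2)
  have h3 := card_union_of_disjoint hdis
  have h4 : ((prt P g x ∩ prt P g' x) ∪ (prt P g x ∩ prt P g' y)).card ≤ (prt P g x).card :=
    card_le_card (union_subset inter_subset_left inter_subset_left)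
  omega

lemma Hyp.gap (H : Hyp G d P h) [MulAction.IsPretransitive G V] (x y : V) :
    3 * sm G P x y < Fintype.card G ∨ 2 * Fintype.card G < 3 * sm G P x y := by
  classical
  have hG : 0 < Fintype.card G := Fintype.card_pos
  have hx := H.mm_le x
  have hy := H.mm_le y
  set N := Fintype.card G with hN
  set s := sm G P x y with hs
  have h1 : (s : ℝ) * (N - s) ≤ mm G P x + mm G P y := by
    unfold mm
    rw [← sum_add_distrib]
    simp_rw [← sum_add_distrib]
    have e1 : (s : ℝ) = ∑ g : G, if P (g • x) = P (g • y) then (1 : ℝ) else 0 := by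
      rw [hs]; unfold sm; rw [card_filter]; push_cast; rfl
    have e2 : (N : ℝ) - s = ∑ g : G, if P (g • x) = P (g • y) then (0 : ℝ) else 1 := by
      rw [e1]
      have : (N : ℝ) = ∑ _g : G, (1 : ℝ) := by simp [hN]
      rw [this, ← sum_sub_distrib]
      refine sum_congr rfl fun g _ => ?_
      split_ifs <;> norm_num
    rw [e2]
    nth_rewrite 1 [e1]
    rw [sum_mul_sum]
    refine sum_le_sum fun g _ => sum_le_sum fun g' _ => ?_
    have n1 := chi_nonneg P x g g'
    have n2 := chi_nonneg P y g g'
    split_ifs with c1 c2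
    · linarith
    · have := chi_or P x y g g' c1 c2
      linarith
    · linarith
    · linarith
  have hNr : (0 : ℝ) < N := by exact_mod_cast hG
  by_contra hcon
  push Not at hcon
  obtain ⟨c1, c2⟩ := hcon
  have c1' : (N : ℝ) ≤ 3 * s := by exact_mod_cast c1
  have c2' : (3 : ℝ) * s ≤ 2 * N := by exact_mod_cast c2
  nlinarith [mul_nonneg (sub_nonneg.mpr c1') (sub_nonneg.mpr c2'), mul_pos hNr hNr]

end Gap

end Pool.Agent.X132.MW
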