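import Mathlib
import Pool.Agent.X132.MW.B

/-! # Multi-way isoperimetric constants: the block system -/

namespace Pool.Agent.X132.MW

open Finset

section Blk

variable {V : Type*} [Fintype V] [DecidableEq V] {G : Type*} [Group G] [Fintype G]
  [MulAction G V] {α : Type*} [Fintype α] [DecidableEq α]
  {d : V → V → ℝ} {P : V → α} {h : ℝ}

/-- being in the same part for more than two thirds of the translated partitions -/
def rel (G : Type*) [Group G] [Fintype G] [MulAction G V] (P : V → α) (x y : V) : Prop :=
  2 * Fintype.card G < 3 * sm G P x y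

instance (P : V → α) (x y : V) : Decidable (rel G P x y) := by unfold rel; infer_instance

lemma sm_symm (P : V → α) (x y : V) : sm G P x y = sm G P y x := by
  unfold sm
  congr 1
  ext g
  simp only [mem_filter, mem_univ, true_and]
  exact eq_comm

lemma sm_self (P : V → α) (x : V) : sm G P x x = Fintype.card G := by
  unfold sm
  simp

lemma sm_smul (P : V → α) (x y : V) (k : G) : sm G P (k • x) (k • y) = sm G P x y := by
  classical
  unfold sm
  have e : (univ.filter (fun g : G => P (g • x) = P (g • y)))
      = (univ.filter (fun g : G => P (g • k • x) = P (g • k • y))).image (fun g => g * k) := by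
    ext g
    simp only [mem_filter, mem_univ, true_and, mem_image]
    constructor
    · intro hg
      refine ⟨g * k⁻¹, ?_, by simp⟩
      rw [smul_smul, smul_smul, inv_mul_cancel_right]
      exact hg
    · rintro ⟨g', hg', rfl⟩
      rw [mul_smul, mul_smul]
      exact hg'
  rw [e, card_image_of_injective _ (mul_left_injective k)]

lemma sm_triangle (P : V → α) (x y z : V) :
    sm G P x y + sm G P y z ≤ sm G P x z + Fintype.card G := by
  classical
  unfold sm
  have h1 := card_union_add_card_inter (univ.filter (fun g : G => P (g • x) = P (g • y)))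
    (univ.filter (fun g : G => P (g • y) = P (g • z)))
  have h2 : ((univ.filter (fun g : G => P (g • x) = P (g • y)))
      ∪ (univ.filter (fun g : G => P (g • y) = P (g • z)))).card ≤ Fintype.card G :=
    card_le_univ _
  have h3 : ((univ.filter (fun g : G => P (g • x) = P (g • y)))
      ∩ (univ.filter (fun g : G => P (g • y) = P (g • z)))).card
      ≤ (univ.filter (fun g : G => P (g • x) = P (g • z))).card := by
    apply card_le_card
    intro g hg
    have a1 := (mem_filter.mp (mem_inter.mp hg).1).2
    have a2 := (mem_filter.mp (mem_inter.mp hg).2).2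
    simp [a1.trans a2]
  omega

lemma Hyp.rel_equiv (H : Hyp G d P h) [MulAction.IsPretransitive G V] :
    Equivalence (rel G P) where
  refl x := by
    unfold rel
    rw [sm_self]
    have : 0 < Fintype.card G := Fintype.card_pos
    omega
  symm := by
    intro x y hxy
    unfold rel at *
    rwa [sm_symm]
  trans := by
    intro x y z h1 h2
    have h3 := sm_triangle (G := G) P x y z
    unfold rel at *
    rcases H.gap x z with h4 | h4
    · omega
    · exact h4

/-- the setoid of blocks -/
def Hyp.std (H : Hyp G d P h) [MulAction.IsPretransitive G V] : Setoid V :=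
  ⟨rel G P, H.rel_equiv⟩

/-- edges leaving the block of `x` -/
def rho (G : Type*) [Group G] [Fintype G] [MulAction G V] (d : V → V → ℝ) (P : V → α)
    (x : V) : ℝ := ∑ y, if rel G P x y then 0 else d x y

lemma Hyp.rho_le (H : Hyp G d P h) [MulAction.IsPretransitive G V] (x : V) :
    rho G d P x ≤ 3 / 2 * h := by
  have hG : (0 : ℝ) < Fintype.card G := by exact_mod_cast Fintype.card_pos
  have h1 := H.sum_g_cd x
  have h2 : 2 / 3 * (Fintype.card G : ℝ) * rho G d P x
      ≤ ∑ g : G, cd d (fun y => P (g • y)) x := by
    unfold cd rho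
    rw [sum_comm, mul_sum]
    refine sum_le_sum fun y _ => ?_
    have hdn := H.hd x y
    have e1 : (∑ g : G, if P (g • y) = P (g • x) then (0 : ℝ) else d x y)
        = ((Fintype.card G : ℝ) - sm G P x y) * d x y := by
      have e2 : (sm G P x y : ℝ) = ∑ g : G, if P (g • x) = P (g • y) then (1 : ℝ) else 0 := by
        unfold sm; rw [card_filter]; push_cast; rfl
      have e3 : (Fintype.card G : ℝ) = ∑ _g : G, (1 : ℝ) := by simp
      rw [e2, e3, ← sum_sub_distrib, sum_mul]
      refine sum_congr rfl fun g _ => ?_
      by_cases hc : P (g • x) = P (g • y)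
      · rw [if_pos hc, if_pos hc.symm]; ring
      · rw [if_neg hc, if_neg (fun h => hc h.symm)]; ring
    rw [e1]
    by_cases hr : rel G P x y
    · rw [if_pos hr, mul_zero]
      have : sm G P x y ≤ Fintype.card G := by
        unfold sm; exact card_le_univ _
      have : (sm G P x y : ℝ) ≤ Fintype.card G := by exact_mod_cast this
      exact mul_nonneg (by linarith) hdn
    · rw [if_neg hr]
      have h3 : 3 * sm G P x y < Fintype.card G := by
        rcases H.gap x y with h4 | h4
        · exact h4
        · exact absurd h4 hr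
      have h3' : (3 : ℝ) * sm G P x y < Fintype.card G := by exact_mod_cast h3
      apply mul_le_mul_of_nonneg_right _ hdn
      linarith
  have h4 : 2 / 3 * (Fintype.card G : ℝ) * rho G d P x ≤ h * Fintype.card G := h2.trans h1
  have h5 : (Fintype.card G : ℝ) * (2 / 3 * rho G d P x) ≤ (Fintype.card G : ℝ) * h := by
    linarith
  have h6 := le_of_mul_le_mul_left h5 hG
  linarith

/-- a set that is a union of blocks has small boundary -/
lemma Hyp.eb_union (H : Hyp G d P h) [MulAction.IsPretransitive G V] (S : Finset V)
    (hS : ∀ x ∈ S, ∀ y, rel G P x y → y ∈ S) : eb d S ≤ 3 / 2 * h * S.card := by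
  have h1 : eb d S ≤ ∑ x ∈ S, rho G d P x := by
    unfold eb rho
    refine sum_le_sum fun x hx => sum_le_sum fun y _ => ?_
    have := H.hd x y
    by_cases hr : rel G P x y
    · rw [if_pos hr, if_pos (hS x hx y hr)]
    · rw [if_neg hr]
      split_ifs <;> linarith
  calc eb d S ≤ ∑ x ∈ S, rho G d P x := h1
    _ ≤ ∑ _x ∈ S, 3 / 2 * h := sum_le_sum fun x _ => H.rho_le x
    _ = 3 / 2 * h * S.card := by rw [sum_const, nsmul_eq_mul]; ring

/-- every part of the partition has more than half of its points in one block -/
lemma Hyp.majority (H : Hyp G d P h) [MulAction.IsPretransitive G V] (a : α)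
    (ha : ∃ x, P x = a) : ∃ z : V,
    let B := univ.filter (fun x => P x = a ∧ rel G P z x)
    (univ.filter (fun x => P x = a)).card < 2 * B.card ∧ eb d B ≤ 5 * h * B.card := by
  classical
  set f : V → Quotient H.std := fun x => Quotient.mk H.std x with hf
  set E := univ.filter (fun x => P x = a) with hE
  have hEne : E.Nonempty := by
    obtain ⟨x, hx⟩ := ha
    exact ⟨x, by simp [hE, hx]⟩
  have hmk : ∀ x y, f y = f x ↔ rel G P x y := by
    intro x y
    rw [hf]
    simp only
    rw [Quotient.eq]
    exact ⟨fun h => H.rel_equiv.symm h, fun h => H.rel_equiv.symm h⟩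
  have hcd : ∀ x, cd d f x = rho G d P x := by
    intro x
    unfold cd rho
    refine sum_congr rfl fun y _ => ?_
    simp only [hmk]
  have htot : ∑ c, eb d (E.filter (fun x => f x = c)) ≤ 5 / 2 * E.card * h := by
    have h1 := sum_pieces H.hd f E
    have h2 : ∑ x ∈ E, cd d f x ≤ 3 / 2 * h * E.card := by
      calc ∑ x ∈ E, cd d f x ≤ ∑ _x ∈ E, 3 / 2 * h :=
            sum_le_sum fun x _ => by rw [hcd]; exact H.rho_le x
        _ = 3 / 2 * h * E.card := by rw [sum_const, nsmul_eq_mul]; ring
    have h3 := H.hP a
    rw [← hE] at h3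
    linarith
  by_cases hex : ∃ c, E.card < 2 * (E.filter (fun x => f x = c)).card
  · obtain ⟨c, hc⟩ := hex
    obtain ⟨z, rfl⟩ := Quotient.exists_rep c
    have e1 : E.filter (fun x => f x = Quotient.mk H.std z)
        = univ.filter (fun x => P x = a ∧ rel G P z x) := by
      ext x
      simp only [hE, mem_filter, mem_univ, true_and]
      exact and_congr_right fun _ => hmk z x
    have h1 : eb d (E.filter (fun x => f x = Quotient.mk H.std z)) ≤ 5 / 2 * E.card * h := by
      refine le_trans ?_ htot
      exact single_le_sum (f := fun c => eb d (E.filter (fun x => f x = c)))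
        (fun c _ => eb_nonneg H.hd _) (mem_univ _)
    refine ⟨z, ?_⟩
    rw [e1] at hc h1
    refine ⟨hc, ?_⟩
    have hc' : (E.card : ℝ) ≤ 2 * (univ.filter (fun x => P x = a ∧ rel G P z x)).card := by
      exact_mod_cast hc.le
    have := mul_le_mul_of_nonneg_left hc' H.hh
    linarith
  · exfalso
    push Not at hex
    have h1 := bad_bound (K := 27) (h := h) (L := 5 / 2 * E.card) univ
      (fun c => ((E.filter (fun x => f x = c)).card : ℝ))
      (fun c => eb d (E.filter (fun x => f x = c))) (fun c _ => by positivity)
      (fun c _ => eb_nonneg H.hd _) (fun _ => True) (by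
        intro c _ _ hpos
        refine H.hA a _ (filter_subset _ _) ?_ (hex c)
        rw [← card_pos]; exact_mod_cast hpos) H.hh (by positivity) htot
    have h2 := card_bad f E (fun _ => True)
    simp only [filter_true] at h1 h2
    rw [h2] at h1
    have h3 : (0 : ℝ) < E.card := by exact_mod_cast hEne.card_pos
    linarith

/-- low-boundary sets are unions of parts most of the time -/
lemma Hyp.factB (H : Hyp G d P h) [MulAction.IsPretransitive G V] (E : Finset V)
    (hE : eb d E ≤ 8 * h * E.card) :
    27 * ∑ g : G, ((E.filter (fun x => 2 * (E ∩ prt P g x).card ≤ (prt P g x).card)).card : ℝ)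
      ≤ 9 * E.card * Fintype.card G := by
  classical
  set bad : G × α → Prop := fun c =>
    2 * (E.filter (fun x => P (c.1 • x) = c.2)).card
      ≤ (univ.filter (fun x => P (c.1 • x) = c.2)).card with hbad
  have h1 := bad_bound (K := 27) (h := h) (L := 9 * E.card * Fintype.card G)
    (univ : Finset (G × α))
    (fun c => ((E.filter (fun x => P (c.1 • x) = c.2)).card : ℝ))
    (fun c => eb d (E.filter (fun x => P (c.1 • x) = c.2))) (fun c _ => by positivity)
    (fun c _ => eb_nonneg H.hd _) bad ?_ H.hh (by positivity) ?_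
  · refine le_trans (le_of_eq ?_) h1
    congr 1
    rw [sum_filter, Fintype.sum_prod_type]
    refine sum_congr rfl fun g _ => ?_
    have h2 := card_bad (fun x => P (g • x)) E (fun a => bad (g, a))
    rw [sum_filter] at h2
    rw [h2]
    congr 2
    ext x
    simp only [mem_filter, hbad]
    refine and_congr_right fun _ => ?_
    have e1 : E ∩ prt P g x = E.filter (fun y => P (g • y) = P (g • x)) := by
      ext y
      simp [prt, mem_inter]
    rw [e1]
    rfl
  · intro c _ hc hpos
    have hne : (E.filter (fun x => P (c.1 • x) = c.2)).Nonempty := by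
      rw [← card_pos]; exact_mod_cast hpos
    obtain ⟨x, hx⟩ := hne
    have hx' : P (c.1 • x) = c.2 := (mem_filter.mp hx).2
    have e3 : prt P c.1 x = univ.filter (fun x => P (c.1 • x) = c.2) := by
      unfold prt
      rw [hx']
    refine expand_smul H.hinv P H.hA c.1 x _ ?_ ⟨x, hx⟩ ?_
    · rw [e3]
      exact filter_subset_filter _ (subset_univ _)
    · rw [e3]
      exact hc
  · rw [Fintype.sum_prod_type]
    have h2 : ∀ g : G, ∑ a, eb d (E.filter (fun x => P (g • x) = a))
        ≤ eb d E + ∑ x ∈ E, cd d (fun y => P (g • y)) x := fun g =>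
      sum_pieces H.hd (fun y => P (g • y)) E
    calc ∑ g : G, ∑ a, eb d (E.filter (fun x => P (g • x) = a))
        ≤ ∑ g : G, (eb d E + ∑ x ∈ E, cd d (fun y => P (g • y)) x) :=
          sum_le_sum fun g _ => h2 g
      _ = Fintype.card G * eb d E + ∑ x ∈ E, ∑ g : G, cd d (fun y => P (g • y)) x := by
          rw [sum_add_distrib, sum_const, nsmul_eq_mul, card_univ, sum_comm]
      _ ≤ Fintype.card G * (8 * h * E.card) + ∑ _x ∈ E, h * Fintype.card G := by
          refine add_le_add (mul_le_mul_of_nonneg_left hE (by positivity)) ?_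
          exact sum_le_sum fun x _ => H.sum_g_cd x
      _ = 9 * E.card * Fintype.card G * h := by
          rw [sum_const, nsmul_eq_mul]; ring

/-- a block cannot be cut into two sets of small boundary -/
lemma Hyp.no_cut (H : Hyp G d P h) [MulAction.IsPretransitive G V] (B D : Finset V)
    (hB : B.Nonempty) (hD : D.Nonempty) (hdis : Disjoint B D)
    (hrel : ∀ x ∈ B, ∀ y ∈ D, rel G P x y)
    (hBe : eb d B ≤ 8 * h * B.card) (hDe : eb d D ≤ 8 * h * D.card) : False := by
  classical
  have h1 := H.factB B hBe
  have h2 := H.factB D hDe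
  have hBpos : (0 : ℝ) < B.card := by exact_mod_cast hB.card_pos
  have hDpos : (0 : ℝ) < D.card := by exact_mod_cast hD.card_pos
  have hGpos : (0 : ℝ) < Fintype.card G := by exact_mod_cast Fintype.card_pos
  -- every triple is bad
  have key : ∀ g : G, ∀ x ∈ B, ∀ y ∈ D, (1 : ℝ) ≤
      (if 2 * (B ∩ prt P g x).card ≤ (prt P g x).card then 1 else 0)
      + (if 2 * (D ∩ prt P g y).card ≤ (prt P g y).card then 1 else 0)
      + (if P (g • x) = P (g • y) then 0 else 1) := by
    intro g x hx y hy
    by_contra hlt
    push Not at hlt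
    split_ifs at hlt with c1 c2 c3 c3 c2 c3 c3 <;> norm_num at hlt
    have e1 : prt P g y = prt P g x := by unfold prt; rw [c3]
    rw [e1] at c2
    have hd2 : Disjoint (B ∩ prt P g x) (D ∩ prt P g x) :=
      disjoint_of_subset_left inter_subset_left (disjoint_of_subset_right inter_subset_left hdis)
    have h3 := card_union_of_disjoint hd2
    have h4 : ((B ∩ prt P g x) ∪ (D ∩ prt P g x)).card ≤ (prt P g x).card :=
      card_le_card (union_subset inter_subset_right inter_subset_right)
    omega
  have hsum : ∑ g : G, ∑ x ∈ B, ∑ y ∈ D, (1 : ℝ) ≤ ∑ g : G, ∑ x ∈ B, ∑ y ∈ D,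
      ((if 2 * (B ∩ prt P g x).card ≤ (prt P g x).card then (1 : ℝ) else 0)
      + (if 2 * (D ∩ prt P g y).card ≤ (prt P g y).card then 1 else 0)
      + (if P (g • x) = P (g • y) then 0 else 1)) :=
    sum_le_sum fun g _ => sum_le_sum fun x hx => sum_le_sum fun y hy => key g x hx y hy
  simp only [sum_add_distrib] at hsum
  have t0 : ∑ g : G, ∑ x ∈ B, ∑ y ∈ D, (1 : ℝ) = Fintype.card G * (B.card * D.card) := by
    simp only [sum_const, nsmul_eq_mul, card_univ, mul_one]
  have t1 : ∑ g : G, ∑ x ∈ B, ∑ y ∈ D,
      (if 2 * (B ∩ prt P g x).card ≤ (prt P g x).card then (1 : ℝ) else 0)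
      = D.card * ∑ g : G,
        ((B.filter (fun x => 2 * (B ∩ prt P g x).card ≤ (prt P g x).card)).card : ℝ) := by
    rw [mul_sum]
    refine sum_congr rfl fun g _ => ?_
    simp only [sum_const, nsmul_eq_mul]
    rw [← mul_sum, card_filter]
    push_cast
    rfl
  have t2 : ∑ g : G, ∑ x ∈ B, ∑ y ∈ D,
      (if 2 * (D ∩ prt P g y).card ≤ (prt P g y).card then (1 : ℝ) else 0)
      = B.card * ∑ g : G,
        ((D.filter (fun x => 2 * (D ∩ prt P g x).card ≤ (prt P g x).card)).card : ℝ) := by
    rw [mul_sum]
    refine sum_congr rfl fun g _ => ?_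
    rw [sum_const, nsmul_eq_mul, card_filter]
    push_cast
    rfl
  have t3 : ∑ g : G, ∑ x ∈ B, ∑ y ∈ D, (if P (g • x) = P (g • y) then (0 : ℝ) else 1)
      < (Fintype.card G : ℝ) / 3 * (B.card * D.card) := by
    rw [sum_comm]
    have e1 : ∀ x ∈ B, ∑ g : G, ∑ y ∈ D, (if P (g • x) = P (g • y) then (0 : ℝ) else 1)
        < (Fintype.card G : ℝ) / 3 * D.card := by
      intro x hx
      rw [sum_comm]
      calc ∑ y ∈ D, ∑ g : G, (if P (g • x) = P (g • y) then (0 : ℝ) else 1)
          < ∑ _y ∈ D, (Fintype.card G : ℝ) / 3 := by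
            apply sum_lt_sum_of_nonempty hD
            intro y hy
            have e2 : (∑ g : G, if P (g • x) = P (g • y) then (0 : ℝ) else 1)
                = (Fintype.card G : ℝ) - sm G P x y := by
              have e2 : (sm G P x y : ℝ)
                  = ∑ g : G, if P (g • x) = P (g • y) then (1 : ℝ) else 0 := by
                unfold sm; rw [card_filter]; push_cast; rfl
              have e3 : (Fintype.card G : ℝ) = ∑ _g : G, (1 : ℝ) := by simp
              rw [e2, e3, ← sum_sub_distrib]
              refine sum_congr rfl fun g _ => ?_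
              split_ifs <;> norm_num
            rw [e2]
            have h5 : 2 * Fintype.card G < 3 * sm G P x y := hrel x hx y hy
            have h5' : (2 : ℝ) * Fintype.card G < 3 * sm G P x y := by exact_mod_cast h5
            linarith
        _ = (Fintype.card G : ℝ) / 3 * D.card := by rw [sum_const, nsmul_eq_mul]; ring
    calc ∑ x ∈ B, ∑ g : G, ∑ y ∈ D, (if P (g • x) = P (g • y) then (0 : ℝ) else 1)
        < ∑ _x ∈ B, (Fintype.card G : ℝ) / 3 * D.card := sum_lt_sum_of_nonempty hB e1
      _ = _ := by rw [sum_const, nsmul_eq_mul]; ring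
  rw [t0, t1, t2] at hsum
  have m1 := mul_le_mul_of_nonneg_left h1 hDpos.le
  have m2 := mul_le_mul_of_nonneg_left h2 hBpos.le
  nlinarith

/-- two parts do not share their majority block -/
lemma Hyp.separate (H : Hyp G d P h) [MulAction.IsPretransitive G V] (a a' : α) (haa : a ≠ a')
    (z z' : V) (hzz : rel G P z z')
    (h1 : (univ.filter (fun x => P x = a ∧ rel G P z x)).Nonempty)
    (h1' : (univ.filter (fun x => P x = a' ∧ rel G P z' x)).Nonempty)
    (h2 : eb d (univ.filter (fun x => P x = a ∧ rel G P z x))
      ≤ 5 * h * (univ.filter (fun x => P x = a ∧ rel G P z x)).card)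
    (h2' : eb d (univ.filter (fun x => P x = a' ∧ rel G P z' x))
      ≤ 5 * h * (univ.filter (fun x => P x = a' ∧ rel G P z' x)).card) : False := by
  classical
  have hE := H.rel_equiv
  have hcong : ∀ x, rel G P z' x ↔ rel G P z x := fun x =>
    ⟨fun hx => hE.trans hzz hx, fun hx => hE.trans (hE.symm hzz) hx⟩
  simp only [hcong] at h1' h2'
  -- main step for one of the two pieces
  have main : ∀ c c' : α, c ≠ c' →
      (univ.filter (fun x => P x = c ∧ rel G P z x)).Nonempty →
      (univ.filter (fun x => P x = c' ∧ rel G P z x)).Nonempty →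
      eb d (univ.filter (fun x => P x = c ∧ rel G P z x))
        ≤ 5 * h * (univ.filter (fun x => P x = c ∧ rel G P z x)).card →
      2 * (univ.filter (fun x => P x = c ∧ rel G P z x)).card
        ≤ (univ.filter (fun x => rel G P z x)).card → False := by
    intro c c' hcc k1 k1' k2 k3
    set B := univ.filter (fun x => P x = c ∧ rel G P z x) with hBd
    set W := univ.filter (fun x => rel G P z x) with hWd
    set D := W \ B with hDd
    have hBW : B ⊆ W := by
      intro x hx
      have := (mem_filter.mp hx).2.2
      simp [hWd, this]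
    have hcard : D.card = W.card - B.card := card_sdiff_of_subset hBW
    have hcardle : B.card ≤ W.card := card_le_card hBW
    have hDne : D.Nonempty := by
      obtain ⟨y, hy⟩ := k1'
      have hy2 := (mem_filter.mp hy).2
      refine ⟨y, ?_⟩
      rw [hDd, mem_sdiff, hWd, hBd, mem_filter, mem_filter]
      refine ⟨⟨mem_univ _, hy2.2⟩, ?_⟩
      rintro ⟨_, h3, _⟩
      exact hcc (h3.symm.trans hy2.1)
    have hWe : eb d W ≤ 3 / 2 * h * W.card := by
      refine H.eb_union W ?_
      intro x hx y hy
      rw [hWd, mem_filter] at hx ⊢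
      exact ⟨mem_univ _, hE.trans hx.2 hy⟩
    have hDe : eb d D ≤ eb d W + eb d B := by
      unfold eb
      have e1 : ∑ x ∈ B, ∑ y, (if y ∈ B then 0 else d x y)
          ≥ ∑ x ∈ D, ∑ y, (if y ∈ B then d x y else 0) := by
        have s1 : ∑ x ∈ D, ∑ y, (if y ∈ B then d x y else 0) = ∑ x ∈ D, ∑ y ∈ B, d x y := by
          refine sum_congr rfl fun x _ => ?_
          rw [← sum_filter]
          congr 1
          ext y; simp
        have s2 : ∑ x ∈ B, ∑ y ∈ D, d x y ≤ ∑ x ∈ B, ∑ y, (if y ∈ B then 0 else d x y) := by
          refine sum_le_sum fun x _ => ?_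
          have s3 : ∑ y ∈ D, d x y = ∑ y ∈ D, (if y ∈ B then 0 else d x y) := by
            refine sum_congr rfl fun y hy => ?_
            rw [if_neg (mem_sdiff.mp hy).2]
          rw [s3]
          refine sum_le_sum_of_subset_of_nonneg (subset_univ _) fun y _ _ => ?_
          split_ifs
          · exact le_rfl
          · exact H.hd x y
        have s4 : ∑ x ∈ D, ∑ y ∈ B, d x y = ∑ x ∈ B, ∑ y ∈ D, d x y := by
          rw [sum_comm]
          refine sum_congr rfl fun x _ => sum_congr rfl fun y _ => ?_
          exact H.hs y x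
        rw [s1, s4]
        exact s2
      have e2 : ∑ x ∈ D, ∑ y, (if y ∈ D then 0 else d x y)
          ≤ ∑ x ∈ D, ∑ y, (if y ∈ W then 0 else d x y)
            + ∑ x ∈ D, ∑ y, (if y ∈ B then d x y else 0) := by
        rw [← sum_add_distrib]
        refine sum_le_sum fun x _ => ?_
        rw [← sum_add_distrib]
        refine sum_le_sum fun y _ => ?_
        have := H.hd x y
        by_cases c1 : y ∈ W
        · by_cases c2 : y ∈ B
          · rw [if_pos c1, if_pos c2, zero_add]
            split_ifs
            · exact this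
            · exact le_rfl
          · rw [if_pos c1, if_neg c2, if_pos (mem_sdiff.mpr ⟨c1, c2⟩)]
            simp
        · rw [if_neg c1]
          split_ifs <;> linarith
      have e3 : ∑ x ∈ D, ∑ y, (if y ∈ W then 0 else d x y)
          ≤ ∑ x ∈ W, ∑ y, (if y ∈ W then 0 else d x y) := by
        refine sum_le_sum_of_subset_of_nonneg sdiff_subset fun x _ _ => sum_nonneg fun y _ => ?_
        split_ifs
        · exact le_rfl
        · exact H.hd x y
      linarith
    have hWB : W.card ≤ 2 * D.card := by omega
    have hBD : B.card ≤ D.card := by omega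
    have hWB' : (W.card : ℝ) ≤ 2 * D.card := by exact_mod_cast hWB
    have hBD' : (B.card : ℝ) ≤ D.card := by exact_mod_cast hBD
    have q1 := mul_le_mul_of_nonneg_left hWB' H.hh
    have q2 := mul_le_mul_of_nonneg_left hBD' H.hh
    have q3 : (0 : ℝ) ≤ h * B.card := mul_nonneg H.hh (by positivity)
    refine H.no_cut B D k1 hDne disjoint_sdiff ?_ (by linarith) (by linarith)
    intro x hx y hy
    have hx2 := (mem_filter.mp hx).2.2
    have hy2 : rel G P z y := by
      have := (mem_sdiff.mp hy).1
      rw [hWd, mem_filter] at this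
      exact this.2
    exact hE.trans (hE.symm hx2) hy2
  have hdis : Disjoint (univ.filter (fun x => P x = a ∧ rel G P z x))
      (univ.filter (fun x => P x = a' ∧ rel G P z x)) := by
    rw [disjoint_left]
    intro x hx hx'
    exact haa ((mem_filter.mp hx).2.1.symm.trans (mem_filter.mp hx').2.1)
  have h3 := card_union_of_disjoint hdis
  have h4 : ((univ.filter (fun x => P x = a ∧ rel G P z x))
      ∪ (univ.filter (fun x => P x = a' ∧ rel G P z x))).card
      ≤ (univ.filter (fun x => rel G P z x)).card := by
    apply card_le_card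
    intro x hx
    rcases mem_union.mp hx with hx | hx
    · have := (mem_filter.mp hx).2.2
      simp [this]
    · have := (mem_filter.mp hx).2.2
      simp [this]
  by_cases hc : 2 * (univ.filter (fun x => P x = a ∧ rel G P z x)).card
        ≤ (univ.filter (fun x => rel G P z x)).card
  · exact main a a' haa h1 h1' h2 hc
  · exact main a' a (Ne.symm haa) h1' h1 h2' (by omega)

end Blk

end Pool.Agent.X132.MW
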