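import Mathlib
import Pool.Agent.X132.MW.C

/-! # Multi-way isoperimetric constants: definitions and the main theorem -/

namespace Pool.Agent.X132.MW

open Finset

/-- The number of edges with exactly one endpoint in `A`, each listed as the pair of its endpoint
in `A` and its endpoint outside `A`. -/
noncomputable def bdry {V : Type*} (Γ : SimpleGraph V) (A : Set V) : ℕ :=
  {e : V × V | e.1 ∈ A ∧ e.2 ∉ A ∧ Γ.Adj e.1 e.2}.ncard

/-- The isoperimetric ratio `|∂A| / |A|`. -/
noncomputable def ratio {V : Type*} (Γ : SimpleGraph V) (A : Set V) : ℝ :=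
  (bdry Γ A : ℝ) / (A.ncard : ℝ)

/-- The `n`-way isoperimetric constant: the minimum, over the partitions of the vertex set into
`n` nonempty parts (the fibres of a surjection onto `Fin n`), of the largest isoperimetric ratio of
a part. -/
noncomputable def hway {V : Type*} (Γ : SimpleGraph V) (n : ℕ) : ℝ :=
  ⨅ P : {P : V → Fin n // Function.Surjective P}, ⨆ i : Fin n, ratio Γ (P.1 ⁻¹' {i})

/-- A system of imprimitivity of size `n` for the automorphism group: a partition into `n`
nonempty blocks such that every automorphism maps each block onto some block. -/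
def HasImprimitivitySystem {V : Type*} (Γ : SimpleGraph V) (n : ℕ) : Prop :=
  ∃ P : V → Fin n, Function.Surjective P ∧
    ∀ g : Γ ≃g Γ, ∀ i : Fin n, ∃ j : Fin n, g '' (P ⁻¹' {i}) = P ⁻¹' {j}

section

variable {V : Type*} [Fintype V]

open Classical in
/-- adjacency weight -/
noncomputable def dw (Γ : SimpleGraph V) (x y : V) : ℝ := if Γ.Adj x y then 1 else 0

lemma eb_bdry [DecidableEq V] (Γ : SimpleGraph V) (S : Finset V) :
    eb (dw Γ) S = (bdry Γ (S : Set V) : ℝ) := by
  classical
  have e1 : {e : V × V | e.1 ∈ (S : Set V) ∧ e.2 ∉ (S : Set V) ∧ Γ.Adj e.1 e.2}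
      = ↑(univ.filter (fun e : V × V => e.1 ∈ S ∧ e.2 ∉ S ∧ Γ.Adj e.1 e.2)) := by
    ext e; simp
  unfold bdry
  rw [e1, Set.ncard_coe_finset, card_filter]
  push_cast
  rw [Fintype.sum_prod_type]
  unfold eb dw
  rw [← sum_subset (subset_univ S)]
  · refine sum_congr rfl fun x hx => sum_congr rfl fun y _ => ?_
    by_cases h1 : y ∈ S
    · simp [h1]
    · by_cases h2 : Γ.Adj x y
      · simp [h1, h2, hx]
      · simp [h1, h2]
  · intro x _ hx
    refine sum_eq_zero fun y _ => ?_
    simp [hx]

lemma fiber_coe [DecidableEq V] {n : ℕ} (P : V → Fin n) (i : Fin n) :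
    (P ⁻¹' {i}) = ((univ.filter (fun x => P x = i) : Finset V) : Set V) := by
  ext x; simp

lemma ratio_fiber [DecidableEq V] (Γ : SimpleGraph V) {n : ℕ} (P : V → Fin n) (i : Fin n) :
    ratio Γ (P ⁻¹' {i}) = eb (dw Γ) (univ.filter (fun x => P x = i))
      / (univ.filter (fun x => P x = i)).card := by
  unfold ratio
  rw [eb_bdry, fiber_coe, Set.ncard_coe_finset]

lemma dw_nonneg (Γ : SimpleGraph V) (x y : V) : 0 ≤ dw Γ x y := by
  unfold dw; split_ifs <;> norm_num

lemma hway_le [DecidableEq V] (Γ : SimpleGraph V) {n : ℕ} (hn : 1 ≤ n) (Q : V → Fin n)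
    (hQ : Function.Surjective Q) (t : ℝ)
    (ht : ∀ i, eb (dw Γ) (univ.filter (fun x => Q x = i))
      ≤ t * (univ.filter (fun x => Q x = i)).card) : hway Γ n ≤ t := by
  classical
  have : Nonempty (Fin n) := ⟨⟨0, hn⟩⟩
  have : Finite {P : V → Fin n // Function.Surjective P} := Subtype.finite
  refine (ciInf_le (Set.finite_range _).bddBelow ⟨Q, hQ⟩).trans ?_
  refine ciSup_le fun i => ?_
  rw [ratio_fiber]
  have hpos : (0 : ℝ) < (univ.filter (fun x => Q x = i)).card := by
    obtain ⟨x, hx⟩ := hQ i
    exact_mod_cast card_pos.mpr ⟨x, by simp [hx]⟩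
  rw [div_le_iff₀ hpos]
  exact ht i

lemma exists_surj (A : Type*) [Fintype A] {n : ℕ} (hn : 1 ≤ n) (hA : n ≤ Fintype.card A) :
    ∃ f : A → Fin n, Function.Surjective f := by
  have : Nonempty (Fin n) := ⟨⟨0, hn⟩⟩
  obtain ⟨e⟩ := Function.Embedding.nonempty_of_card_le (α := Fin n) (β := A) (by simpa using hA)
  exact ⟨Function.invFun e, Function.invFun_surjective e.injective⟩

lemma exists_hway [DecidableEq V] (Γ : SimpleGraph V) {n : ℕ} (hn : 1 ≤ n)
    (hV : n ≤ Fintype.card V) : ∃ P : V → Fin n, Function.Surjective P ∧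
      ∀ i, eb (dw Γ) (univ.filter (fun x => P x = i))
        ≤ hway Γ n * (univ.filter (fun x => P x = i)).card := by
  classical
  have : Nonempty (Fin n) := ⟨⟨0, hn⟩⟩
  have : Finite {P : V → Fin n // Function.Surjective P} := Subtype.finite
  obtain ⟨f, hf⟩ := exists_surj V hn hV
  have : Nonempty {P : V → Fin n // Function.Surjective P} := ⟨⟨f, hf⟩⟩
  obtain ⟨P, hP⟩ := exists_eq_ciInf_of_finite
    (f := fun P : {P : V → Fin n // Function.Surjective P} => ⨆ i, ratio Γ (P.1 ⁻¹' {i}))
  refine ⟨P.1, P.2, fun i => ?_⟩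
  have h1 : ratio Γ (P.1 ⁻¹' {i}) ≤ hway Γ n := by
    unfold hway
    rw [← hP]
    exact le_ciSup (f := fun i => ratio Γ (P.1 ⁻¹' {i})) (Set.finite_range _).bddAbove i
  rw [ratio_fiber] at h1
  have hpos : (0 : ℝ) < (univ.filter (fun x => P.1 x = i)).card := by
    obtain ⟨x, hx⟩ := P.2 i
    exact_mod_cast card_pos.mpr ⟨x, by simp [hx]⟩
  rwa [div_le_iff₀ hpos] at h1

lemma hway_nonneg [DecidableEq V] (Γ : SimpleGraph V) {n : ℕ} (hn : 1 ≤ n)
    (hV : n ≤ Fintype.card V) : 0 ≤ hway Γ n := by
  obtain ⟨P, hP, h⟩ := exists_hway Γ hn hV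
  have h1 := h ⟨0, hn⟩
  have hpos : (0 : ℝ) < (univ.filter (fun x => P x = ⟨0, hn⟩)).card := by
    obtain ⟨x, hx⟩ := hP ⟨0, hn⟩
    exact_mod_cast card_pos.mpr ⟨x, by simp [hx]⟩
  have h2 := eb_nonneg (dw_nonneg Γ) (univ.filter (fun x => P x = ⟨0, hn⟩))
  by_contra hlt
  push Not at hlt
  nlinarith

lemma eb_sdiff [DecidableEq V] {d : V → V → ℝ} (hd : ∀ x y, 0 ≤ d x y)
    (hs : ∀ x y, d x y = d y x) (W B : Finset V) : eb d (W \ B) ≤ eb d W + eb d B := by
  set D := W \ B with hDd
  unfold eb
  have e1 : ∑ x ∈ B, ∑ y, (if y ∈ B then 0 else d x y)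
      ≥ ∑ x ∈ D, ∑ y, (if y ∈ B then d x y else 0) := by
    have s1 : ∑ x ∈ D, ∑ y, (if y ∈ B then d x y else 0) = ∑ x ∈ D, ∑ y ∈ B, d x y := by
      refine sum_congr rfl fun x _ => ?_
      rw [← sum_filter]
      congr 1
      ext y; simp
    have s2 : ∑ x ∈ B, ∑ y ∈ D, d x y ≤ ∑ x ∈ B, ∑ y, (if y ∈ B then 0 else d x y) := by
      refine sum_le_sum fun x _ => ?_
      have s3 : ∑ y ∈ D, d x y = ∑ y ∈ D, (if y ∈ B then 0 else d x y) := by
        refine sum_congr rfl fun y hy => ?_
        rw [if_neg (mem_sdiff.mp hy).2]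
      rw [s3]
      refine sum_le_sum_of_subset_of_nonneg (subset_univ _) fun y _ _ => ?_
      split_ifs
      · exact le_rfl
      · exact hd x y
    have s4 : ∑ x ∈ D, ∑ y ∈ B, d x y = ∑ x ∈ B, ∑ y ∈ D, d x y := by
      rw [sum_comm]
      refine sum_congr rfl fun x _ => sum_congr rfl fun y _ => ?_
      exact hs y x
    rw [s1, s4]
    exact s2
  have e2 : ∑ x ∈ D, ∑ y, (if y ∈ D then 0 else d x y)
      ≤ ∑ x ∈ D, ∑ y, (if y ∈ W then 0 else d x y)
        + ∑ x ∈ D, ∑ y, (if y ∈ B then d x y else 0) := by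
    rw [← sum_add_distrib]
    refine sum_le_sum fun x _ => ?_
    rw [← sum_add_distrib]
    refine sum_le_sum fun y _ => ?_
    have := hd x y
    by_cases c1 : y ∈ W
    · by_cases c2 : y ∈ B
      · rw [if_pos c1, if_pos c2, zero_add]
        split_ifs
        · exact this
        · exact le_rfl
      · rw [if_pos c1, if_neg c2, if_pos (mem_sdiff.mpr ⟨c1, c2⟩)]
        simp
    · rw [if_neg c1]
      split_ifs <;> linarith
  have e3 : ∑ x ∈ D, ∑ y, (if y ∈ W then 0 else d x y)
      ≤ ∑ x ∈ W, ∑ y, (if y ∈ W then 0 else d x y) := by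
    refine sum_le_sum_of_subset_of_nonneg sdiff_subset fun x _ _ => sum_nonneg fun y _ => ?_
    split_ifs
    · exact le_rfl
    · exact hd x y
  linarith

/-- **Main theorem.** -/
theorem main (Γ : SimpleGraph V) (htr : ∀ x y : V, ∃ g : Γ ≃g Γ, g x = y) (n : ℕ)
    (hn : 1 ≤ n) (hnV : n < Fintype.card V) (hno : ¬ HasImprimitivitySystem Γ n) :
    hway Γ (n + 1) ≤ 29 * hway Γ n := by
  classical
  by_contra hlt
  push Not at hlt
  obtain ⟨P, hPs, hPe⟩ := exists_hway Γ hn hnV.le
  have hh := hway_nonneg Γ hn hnV.le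
  set h := hway Γ n with hhdef
  have : Finite (Γ ≃g Γ) := DFunLike.finite _
  let _ : Fintype (Γ ≃g Γ) := Fintype.ofFinite _
  let _ : MulAction (Γ ≃g Γ) V :=
    { smul := fun g x => g x
      one_smul := fun x => rfl
      mul_smul := fun g k x => rfl }
  have : MulAction.IsPretransitive (Γ ≃g Γ) V := ⟨fun x y => htr x y⟩
  have hdn := dw_nonneg Γ
  have hds : ∀ x y, dw Γ x y = dw Γ y x := by
    intro x y
    unfold dw
    simp only [Γ.adj_comm x y]
  have hno2 : ∀ Q : V → Fin (n + 1), Function.Surjective Q →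
      (∀ i, eb (dw Γ) (univ.filter (fun x => Q x = i))
        ≤ 29 * h * (univ.filter (fun x => Q x = i)).card) → False := by
    intro Q hQ hQ2
    have := hway_le Γ (by omega) Q hQ (29 * h) hQ2
    linarith
  have H : Hyp (Γ ≃g Γ) (dw Γ) P h := by
    refine ⟨hdn, hds, ?_, hh, hPe, ?_⟩
    · intro g x y
      show dw Γ (g x) (g y) = dw Γ x y
      unfold dw
      simp only [g.map_adj_iff]
    · intro a B hB hne hc
      by_contra hcon
      push Not at hcon
      set E := univ.filter (fun x => P x = a) with hE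
      have hBP : ∀ x ∈ B, P x = a := fun x hx => (mem_filter.mp (hB hx)).2
      set Q : V → Fin (n + 1) := fun x => if x ∈ B then Fin.last n else (P x).castSucc with hQ
      have hcs : (E \ B).card = E.card - B.card := card_sdiff_of_subset hB
      have hBpos := hne.card_pos
      have hble : B.card ≤ E.card := card_le_card hB
      have hEB : (E \ B).Nonempty := by
        rw [← card_pos]; omega
      have f1 : univ.filter (fun x => Q x = Fin.last n) = B := by
        ext x
        simp only [mem_filter, mem_univ, true_and, hQ]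
        by_cases hx : x ∈ B
        · simp [hx]
        · simp [hx, (Fin.castSucc_lt_last _).ne]
      have f2 : ∀ i, univ.filter (fun x => Q x = Fin.castSucc i)
          = univ.filter (fun x => P x = i) \ B := by
        intro i
        ext x
        simp only [mem_filter, mem_univ, true_and, hQ, mem_sdiff]
        by_cases hx : x ∈ B
        · simp [hx, (Fin.castSucc_lt_last i).ne']
        · simp [hx]
      have f3 : ∀ i, i ≠ a → univ.filter (fun x => P x = i) \ B = univ.filter (fun x => P x = i) := by
        intro i hi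
        rw [Finset.sdiff_eq_self_iff_disjoint, disjoint_left]
        intro x hx hxB
        exact hi ((mem_filter.mp hx).2.symm.trans (hBP x hxB))
      refine hno2 Q ?_ ?_
      · intro j
        refine Fin.lastCases ?_ (fun i => ?_) j
        · obtain ⟨x, hx⟩ := hne
          have : x ∈ univ.filter (fun x => Q x = Fin.last n) := by rw [f1]; exact hx
          exact ⟨x, (mem_filter.mp this).2⟩
        · by_cases hi : i = a
          · obtain ⟨x, hx⟩ := hEB
            have : x ∈ univ.filter (fun x => Q x = Fin.castSucc i) := by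
              rw [f2, hi]; exact hx
            exact ⟨x, (mem_filter.mp this).2⟩
          · obtain ⟨x, hx⟩ := hPs i
            have : x ∈ univ.filter (fun x => Q x = Fin.castSucc i) := by
              rw [f2, f3 i hi]; simp [hx]
            exact ⟨x, (mem_filter.mp this).2⟩
      · intro j
        refine Fin.lastCases ?_ (fun i => ?_) j
        · rw [f1]
          have : 0 ≤ h * B.card := mul_nonneg hh (by positivity)
          linarith
        · rw [f2]
          by_cases hi : i = a
          · rw [hi, ← hE]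
            have g1 := eb_sdiff hdn hds E B
            have g2 := hPe a
            rw [← hE] at g2
            have hE2 : E.card ≤ 2 * (E \ B).card := by omega
            have hB2 : B.card ≤ (E \ B).card := by omega
            have hE2' : (E.card : ℝ) ≤ 2 * (E \ B).card := by exact_mod_cast hE2
            have hB2' : (B.card : ℝ) ≤ (E \ B).card := by exact_mod_cast hB2
            have q1 := mul_le_mul_of_nonneg_left hE2' hh
            have q2 := mul_le_mul_of_nonneg_left hB2' hh
            linarith
          · rw [f3 i hi]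
            have g2 := hPe i
            have : 0 ≤ h * (univ.filter (fun x => P x = i)).card :=
              mul_nonneg hh (by positivity)
            linarith
  have hE := H.rel_equiv
  set st : Setoid V := H.std with hst
  let _ : Fintype (Quotient st) := Fintype.ofFinite _
  have hmk : ∀ x y, (Quotient.mk st x = Quotient.mk st y) ↔ rel (Γ ≃g Γ) P x y := fun x y =>
    Quotient.eq
  rcases lt_trichotomy (Fintype.card (Quotient st)) n with hm | hm | hm
  · -- fewer blocks than parts
    choose z hz using fun a : Fin n => H.majority a (hPs a)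
    obtain ⟨a, a', haa, hz'⟩ := Fintype.exists_ne_map_eq_of_card_lt
      (fun a : Fin n => Quotient.mk st (z a)) (by simpa using hm)
    have hzz := (hmk _ _).mp hz'
    obtain ⟨k1, k2⟩ := hz a
    obtain ⟨k1', k2'⟩ := hz a'
    refine H.separate a a' haa (z a) (z a') hzz ?_ ?_ k2 k2'
    · rw [← card_pos]; omega
    · rw [← card_pos]; omega
  · -- the block system
    apply hno
    have e : Quotient st ≃ Fin n := Fintype.equivFinOfCardEq hm
    refine ⟨fun x => e (Quotient.mk st x), ?_, ?_⟩
    · intro i
      obtain ⟨x, hx⟩ := Quotient.exists_rep (e.symm i)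
      exact ⟨x, by show e (Quotient.mk st x) = i; rw [hx]; simp⟩
    · intro g i
      obtain ⟨x, hx⟩ := Quotient.exists_rep (e.symm i)
      refine ⟨e (Quotient.mk st (g x)), ?_⟩
      have hrel : ∀ u v : V, rel (Γ ≃g Γ) P (g u) (g v) ↔ rel (Γ ≃g Γ) P u v := by
        intro u v
        unfold rel
        have := sm_smul P u v g
        rw [show (g • u : V) = g u from rfl, show (g • v : V) = g v from rfl] at this
        rw [this]
      have hi : i = e (Quotient.mk st x) := by rw [hx]; simp
      ext y
      simp only [Set.mem_image, Set.mem_preimage, Set.mem_singleton_iff, hi,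
        EmbeddingLike.apply_eq_iff_eq, hmk]
      constructor
      · rintro ⟨w, hw, rfl⟩
        exact (hrel w x).mpr hw
      · intro hy
        refine ⟨g.symm y, ?_, by simp⟩
        rw [← hrel]
        simpa using hy
  · -- more blocks than parts
    obtain ⟨r, hr⟩ := exists_surj (Quotient st) (n := n + 1) (by omega) hm
    refine hno2 (fun x => r (Quotient.mk st x)) ?_ ?_
    · intro i
      obtain ⟨c, hc⟩ := hr i
      obtain ⟨x, hx⟩ := Quotient.exists_rep c
      exact ⟨x, by show r (Quotient.mk st x) = i; rw [hx]; exact hc⟩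
    · intro i
      have h1 := H.eb_union (univ.filter (fun x => r (Quotient.mk st x) = i)) (by
        intro x hx y hy
        have hx2 := (mem_filter.mp hx).2
        rw [(hmk x y).mpr hy] at hx2
        simp [hx2])
      have : 0 ≤ h * (univ.filter (fun x => r (Quotient.mk st x) = i)).card :=
        mul_nonneg hh (by positivity)
      linarith

end

end Pool.Agent.X132.MW
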